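import Mathlib

set_option autoImplicit false

namespace Pool.Agent.H159R2.Cyc

/-- Edge-magic labelling of the `n`-cycle with magic constant `M`. -/
def EM (n M : ℕ) : Prop :=
  ∃ f g : Fin n → ℕ, Function.Injective (Sum.elim f g) ∧
    (∀ x : Fin n ⊕ Fin n, Sum.elim f g x ∈ Finset.Icc 1 (2 * n)) ∧
    ∀ i : Fin n, g i + f i + f (finRotate n i) = M

/-- Path relation: vertex labels `L` followed by `z`, edge labels `E`, all sums are `M`. -/
def P (M : ℕ) : List ℕ → List ℕ → ℕ → Prop
  | [], [], _ => True
  | a :: L, b :: E, z => b + a + (L.headD z) = M ∧ P M L E z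
  | _, _, _ => False

theorem headD_append (L1 L2 : List ℕ) (z : ℕ) : (L1 ++ L2).headD z = L1.headD (L2.headD z) := by
  cases L1 <;> simp

theorem P_append (M : ℕ) (L1 E1 L2 E2 : List ℕ) (z : ℕ) (h1 : P M L1 E1 (L2.headD z))
    (h2 : P M L2 E2 z) : P M (L1 ++ L2) (E1 ++ E2) z := by
  induction L1 generalizing E1 with
  | nil =>
    cases E1 with
    | nil => simpa using h2
    | cons b E => exact h1.elim
  | cons a L ih =>
    cases E1 with
    | nil => exact h1.elim
    | cons b E =>
      obtain ⟨h, h'⟩ := h1
      refine ⟨?_, ih E h'⟩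
      have := headD_append L L2 z
      change b + a + (L ++ L2).headD z = M
      rw [this]
      exact h

theorem P_length (M : ℕ) (L E : List ℕ) (z : ℕ) (h : P M L E z) : L.length = E.length := by
  induction L generalizing E with
  | nil =>
    cases E with
    | nil => rfl
    | cons b E => exact h.elim
  | cons a L ih =>
    cases E with
    | nil => exact h.elim
    | cons b E => simp [ih E h.2]

theorem P_get (M : ℕ) (L E : List ℕ) (z : ℕ) (h : P M L E z) (p : ℕ) (hp : p < L.length) :
    E.getD p 0 + L.getD p 0 + (L ++ [z]).getD (p + 1) 0 = M := by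
  induction L generalizing E p with
  | nil => simp at hp
  | cons a L ih =>
    cases E with
    | nil => exact h.elim
    | cons b E =>
      cases p with
      | zero =>
        have h1 := h.1
        cases L with
        | nil => simpa using h1
        | cons c L => simpa using h1
      | succ p =>
        have := ih E h.2 p (by simpa using hp)
        simpa using this

theorem EM_of_P (M : ℕ) (L E : List ℕ) (hP : P M L E (L.headD 0))
    (hs : ∀ z, 1 ≤ z → z ≤ 2 * L.length → z ∈ L ∨ z ∈ E) : EM L.length M := by
  have hlen := P_length M L E _ hP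
  have hsub : List.range' 1 (2 * L.length) ⊆ L ++ E := by
    intro z hz
    rw [List.mem_range'_1] at hz
    rw [List.mem_append]
    exact hs z hz.1 (by omega)
  have hsp : (List.range' 1 (2 * L.length)).Subperm (L ++ E) :=
    List.subperm_of_subset List.nodup_range' hsub
  have hperm : (List.range' 1 (2 * L.length)).Perm (L ++ E) := by
    apply hsp.perm_of_length_le
    simp [← hlen]
    omega
  have hnd : (L ++ E).Nodup := hperm.nodup_iff.1 List.nodup_range'
  have hmem : ∀ z ∈ L ++ E, 1 ≤ z ∧ z ≤ 2 * L.length := by
    intro z hz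
    have := hperm.mem_iff.2 hz
    rw [List.mem_range'_1] at this
    omega
  rw [List.nodup_append] at hnd
  obtain ⟨hL, hE, hdis⟩ := hnd
  have hfm : ∀ i : Fin L.length, L.getD i 0 ∈ L := by
    intro i
    rw [List.getD_eq_getElem _ _ i.2]
    exact List.getElem_mem _
  have hgm : ∀ i : Fin L.length, E.getD i 0 ∈ E := by
    intro i
    rw [List.getD_eq_getElem _ _ (by rw [← hlen]; exact i.2)]
    exact List.getElem_mem _
  refine ⟨fun i => L.getD i 0, fun i => E.getD i 0, ?_, ?_, ?_⟩
  · rintro (i | i) (j | j) h
    · simp only [Sum.elim_inl] at h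
      rw [List.getD_eq_getElem _ _ i.2, List.getD_eq_getElem _ _ j.2, hL.getElem_inj_iff] at h
      rw [Fin.ext h]
    · simp only [Sum.elim_inl, Sum.elim_inr] at h
      exact absurd h (hdis _ (hfm i) _ (hgm j))
    · simp only [Sum.elim_inl, Sum.elim_inr] at h
      exact absurd h.symm (hdis _ (hfm j) _ (hgm i))
    · simp only [Sum.elim_inr] at h
      rw [List.getD_eq_getElem _ _ (by rw [← hlen]; exact i.2),
        List.getD_eq_getElem _ _ (by rw [← hlen]; exact j.2), hE.getElem_inj_iff] at h
      rw [Fin.ext h]
  · rintro (i | i)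
    · rw [Finset.mem_Icc]
      exact hmem _ (List.mem_append_left _ (hfm i))
    · rw [Finset.mem_Icc]
      exact hmem _ (List.mem_append_right _ (hgm i))
  · intro i
    have h1 := P_get M L E _ hP i i.2
    have h2 : (finRotate L.length i : ℕ) = (i + 1) % L.length := by
      have hpos : 0 < L.length := by have := i.2; omega
      obtain ⟨m, hm⟩ : ∃ m, L.length = m + 1 := ⟨L.length - 1, by omega⟩
      clear h1
      revert i
      rw [hm]
      intro i
      rw [finRotate_apply, Fin.val_add, Fin.val_one']
      simp
    simp only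
    rw [h2]
    rw [← h1]
    congr 1
    by_cases hi : (i : ℕ) + 1 < L.length
    · rw [Nat.mod_eq_of_lt hi, List.getD_append _ _ _ _ hi]
    · have : (i : ℕ) + 1 = L.length := by have := i.2; omega
      rw [this, Nat.mod_self]
      rw [List.getD_append_right _ _ _ _ (le_refl _)]
      cases L with
      | nil => simp at this
      | cons a L => simp

/-- Duality. -/
theorem EM_dual (n M M' : ℕ) (h : EM n M) (hM : M + M' = 3 * (2 * n + 1)) : EM n M' := by
  obtain ⟨f, g, hinj, hr, hs⟩ := h
  have hf : ∀ i, 1 ≤ f i ∧ f i ≤ 2 * n := fun i => Finset.mem_Icc.1 (hr (Sum.inl i))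
  have hg : ∀ i, 1 ≤ g i ∧ g i ≤ 2 * n := fun i => Finset.mem_Icc.1 (hr (Sum.inr i))
  refine ⟨fun i => 2 * n + 1 - f i, fun i => 2 * n + 1 - g i, ?_, ?_, ?_⟩
  · rintro (i | i) (j | j) h
    · simp only [Sum.elim_inl] at h
      have := hf i; have := hf j
      exact hinj (show f i = f j by omega)
    · simp only [Sum.elim_inl, Sum.elim_inr] at h
      have := hf i; have := hg j
      exact hinj (show f i = g j by omega)
    · simp only [Sum.elim_inl, Sum.elim_inr] at h
      have := hg i; have := hf j
      exact hinj (show g i = f j by omega)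
    · simp only [Sum.elim_inr] at h
      have := hg i; have := hg j
      exact hinj (show g i = g j by omega)
  · rintro (i | i)
    · rw [Finset.mem_Icc]
      have := hf i
      simp only [Sum.elim_inl]
      omega
    · rw [Finset.mem_Icc]
      have := hg i
      simp only [Sum.elim_inr]
      omega
  · intro i
    have h1 := hs i
    have h2 := hf i
    have h3 := hg i
    have h4 := hf (finRotate n i)
    simp only
    omega

end Pool.Agent.H159R2.Cyc
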