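import Pool.Agent.H159R2.Cyc.Pump

set_option autoImplicit false

namespace Pool.Agent.H159R2.Cyc

/-- A block with its multiplicities in three rays. -/
structure SBlk where
  x : ℕ
  y : ℕ
  e : ℕ
  o : Bool
  a : ℕ
  b : ℕ
  c : ℕ

structure Tri where
  p : ℕ
  q : ℕ
  r : ℕ

/-- A certificate: a seed labelling with up to three pumping rays. -/
structure Cert where
  M : ℕ
  sb : List SBlk
  s1 : ℕ
  s2 : ℕ
  s3 : ℕ
  d1 : ℕ
  d2 : ℕ
  d3 : ℕ
  al : Tri
  be : Tri

def tb (p q r : ℕ) (s : SBlk) : Blk := ⟨s.x, s.y, s.e, s.o, p * s.a + q * s.b + r * s.c⟩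

theorem ite_lin (c : Prop) [Decidable c] (p q r x y z : ℕ) :
    (if c then p * x + q * y + r * z else 0) =
      p * (if c then x else 0) + q * (if c then y else 0) + r * (if c then z else 0) := by
  split_ifs <;> simp

theorem tb_up (p q r : ℕ) (s : SBlk) : (tb p q r s).up = (tb 0 0 0 s).up := rfl
theorem tb_dn (p q r : ℕ) (s : SBlk) : (tb p q r s).dn = (tb 0 0 0 s).dn := rfl
theorem tb_e (p q r : ℕ) (s : SBlk) : (tb p q r s).e = s.e := rfl
theorem tb_x (p q r : ℕ) (s : SBlk) : (tb p q r s).x = s.x := rfl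
theorem tb_y (p q r : ℕ) (s : SBlk) : (tb p q r s).y = s.y := rfl
theorem tb_l (p q r : ℕ) (s : SBlk) : (tb p q r s).l = p * s.a + q * s.b + r * s.c := rfl

theorem sum_lin (F : Blk → ℕ)
    (hF : ∀ (p q r : ℕ) (b : SBlk), F (tb p q r b) =
      p * F (tb 1 0 0 b) + q * F (tb 0 1 0 b) + r * F (tb 0 0 1 b))
    (sb : List SBlk) (p q r : ℕ) : ((sb.map (tb p q r)).map F).sum =
    p * ((sb.map (tb 1 0 0)).map F).sum + q * ((sb.map (tb 0 1 0)).map F).sum +
      r * ((sb.map (tb 0 0 1)).map F).sum := by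
  induction sb with
  | nil => simp
  | cons b sb ih =>
    simp only [List.map_cons, List.sum_cons]
    rw [ih, hF p q r b]
    ring

theorem shift_lin (sb : List SBlk) (p q r s : ℕ) : shift (sb.map (tb p q r)) s =
    p * shift (sb.map (tb 1 0 0)) s + q * shift (sb.map (tb 0 1 0)) s +
      r * shift (sb.map (tb 0 0 1)) s := by
  unfold shift
  apply sum_lin
  intro p q r b
  show (if (tb 0 0 0 b).up < s then _ else 0) + (if (tb 0 0 0 b).dn < s then _ else 0) +
      (if b.e < s then 2 * (p * b.a + q * b.b + r * b.c) else 0) =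
    p * ((if (tb 0 0 0 b).up < s then _ else 0) + (if (tb 0 0 0 b).dn < s then _ else 0) +
      (if b.e < s then 2 * (1 * b.a + 0 * b.b + 0 * b.c) else 0)) +
    q * ((if (tb 0 0 0 b).up < s then _ else 0) + (if (tb 0 0 0 b).dn < s then _ else 0) +
      (if b.e < s then 2 * (0 * b.a + 1 * b.b + 0 * b.c) else 0)) +
    r * ((if (tb 0 0 0 b).up < s then _ else 0) + (if (tb 0 0 0 b).dn < s then _ else 0) +
      (if b.e < s then 2 * (0 * b.a + 0 * b.b + 1 * b.c) else 0))
  simp only [tb_l]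
  split_ifs <;> ring

theorem cs_lin (sb : List SBlk) (p q r s : ℕ) : cs (sb.map (tb p q r)) s =
    p * cs (sb.map (tb 1 0 0)) s + q * cs (sb.map (tb 0 1 0)) s +
      r * cs (sb.map (tb 0 0 1)) s := by
  unfold cs
  apply sum_lin
  intro p q r b
  show (if (tb 0 0 0 b).up = s then _ else 0) + (if (tb 0 0 0 b).dn = s then _ else 0) +
      (if b.e = s then 2 * (p * b.a + q * b.b + r * b.c) else 0) =
    p * ((if (tb 0 0 0 b).up = s then _ else 0) + (if (tb 0 0 0 b).dn = s then _ else 0) +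
      (if b.e = s then 2 * (1 * b.a + 0 * b.b + 0 * b.c) else 0)) +
    q * ((if (tb 0 0 0 b).up = s then _ else 0) + (if (tb 0 0 0 b).dn = s then _ else 0) +
      (if b.e = s then 2 * (0 * b.a + 1 * b.b + 0 * b.c) else 0)) +
    r * ((if (tb 0 0 0 b).up = s then _ else 0) + (if (tb 0 0 0 b).dn = s then _ else 0) +
      (if b.e = s then 2 * (0 * b.a + 0 * b.b + 1 * b.c) else 0))
  simp only [tb_l]
  split_ifs <;> ring

theorem D_lin (sb : List SBlk) (p q r s : ℕ) : D (sb.map (tb p q r)) s =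
    p * D (sb.map (tb 1 0 0)) s + q * D (sb.map (tb 0 1 0)) s +
      r * D (sb.map (tb 0 0 1)) s := by
  unfold D
  apply sum_lin
  intro p q r b
  show (if (tb 0 0 0 b).dn = s then _ else 0) =
    p * (if (tb 0 0 0 b).dn = s then _ else 0) +
    q * (if (tb 0 0 0 b).dn = s then _ else 0) +
    r * (if (tb 0 0 0 b).dn = s then _ else 0)
  simp only [tb_l]
  split_ifs <;> ring

theorem U_lin (sb : List SBlk) (p q r s : ℕ) : U (sb.map (tb p q r)) s =
    p * U (sb.map (tb 1 0 0)) s + q * U (sb.map (tb 0 1 0)) s +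
      r * U (sb.map (tb 0 0 1)) s := by
  unfold U
  apply sum_lin
  intro p q r b
  show (if (tb 0 0 0 b).up = s then _ else 0) =
    p * (if (tb 0 0 0 b).up = s then _ else 0) +
    q * (if (tb 0 0 0 b).up = s then _ else 0) +
    r * (if (tb 0 0 0 b).up = s then _ else 0)
  simp only [tb_l]
  split_ifs <;> ring

theorem l_lin (sb : List SBlk) (p q r : ℕ) : ((sb.map (tb p q r)).map Blk.l).sum =
    p * ((sb.map (tb 1 0 0)).map Blk.l).sum + q * ((sb.map (tb 0 1 0)).map Blk.l).sum +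
      r * ((sb.map (tb 0 0 1)).map Blk.l).sum := by
  induction sb with
  | nil => simp
  | cons b sb ih =>
    simp only [List.map_cons, List.sum_cons]
    rw [ih]
    simp only [tb_l]
    ring

/-- homogeneous conditions for a unit ray -/
def okH (sb : List SBlk) (p q r S dM : ℕ) : Bool :=
  let bs := sb.map (tb p q r)
  (shift bs 1 == 0) && (shift bs (2 * sb.length + 1) == 4 * S) && ((bs.map Blk.l).sum == S) &&
  sb.all fun b =>
    (cs bs b.e == 2 * (tb p q r b).l) && (cs bs b.x == D bs b.x + U bs b.x) &&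
    (shift bs b.x + D bs b.x + (shift bs b.y + D bs b.y) + shift bs b.e + (tb p q r b).l == dM) &&
    ((b.a + b.b + b.c == 0) || ((D bs (tb p q r b).dn == (tb p q r b).l) &&
      (U bs (tb p q r b).up == (tb p q r b).l)))

def chainB : List SBlk → ℕ → Bool
  | [], _ => true
  | b :: bs, z => (b.y == (bs.map SBlk.x).headD z) && chainB bs z

def Cert.ok (c : Cert) : Bool :=
  (0 < c.sb.length) && chainB c.sb ((c.sb.map SBlk.x).headD 0) &&
  ((List.range (2 * c.sb.length)).all fun s => c.sb.any fun b => b.x == s + 1 || b.e == s + 1) &&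
  (c.sb.all fun b => b.x + b.y + b.e == c.M) &&
  okH c.sb 1 0 0 c.s1 c.d1 && okH c.sb 0 1 0 c.s2 c.d2 && okH c.sb 0 0 1 c.s3 c.d3

theorem chain_of (sb : List SBlk) (z p q r : ℕ) (h : chainB sb z = true) :
    Chained (sb.map (tb p q r)) z := by
  induction sb with
  | nil => trivial
  | cons b sb ih =>
    simp only [chainB, Bool.and_eq_true, beq_iff_eq] at h
    refine ⟨?_, ih h.2⟩
    rw [tb_y, h.1, List.map_map]
    congr 1

theorem okH_prop (sb : List SBlk) (p q r S dM : ℕ) (h : okH sb p q r S dM = true) :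
    shift (sb.map (tb p q r)) 1 = 0 ∧ shift (sb.map (tb p q r)) (2 * sb.length + 1) = 4 * S ∧
    ((sb.map (tb p q r)).map Blk.l).sum = S ∧ ∀ b ∈ sb,
      cs (sb.map (tb p q r)) b.e = 2 * (tb p q r b).l ∧
      cs (sb.map (tb p q r)) b.x = D (sb.map (tb p q r)) b.x + U (sb.map (tb p q r)) b.x ∧
      shift (sb.map (tb p q r)) b.x + D (sb.map (tb p q r)) b.x +
        (shift (sb.map (tb p q r)) b.y + D (sb.map (tb p q r)) b.y) +
        shift (sb.map (tb p q r)) b.e + (tb p q r b).l = dM ∧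
      (b.a + b.b + b.c = 0 ∨ (D (sb.map (tb p q r)) (tb 0 0 0 b).dn = (tb p q r b).l ∧
        U (sb.map (tb p q r)) (tb 0 0 0 b).up = (tb p q r b).l)) := by
  unfold okH at h
  simp only [Bool.and_eq_true, Bool.or_eq_true, beq_iff_eq, List.all_eq_true] at h
  obtain ⟨⟨⟨h1, h2⟩, h3⟩, h4⟩ := h
  refine ⟨h1, h2, h3, fun b hb => ?_⟩
  obtain ⟨⟨⟨a1, a2⟩, a3⟩, a4⟩ := h4 b hb
  exact ⟨a1, a2, a3, a4⟩

theorem Cert.em (c : Cert) (h : c.ok = true) (p q r : ℕ) :
    EM (c.sb.length + 2 * (p * c.s1 + q * c.s2 + r * c.s3))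
      (c.M + (p * c.d1 + q * c.d2 + r * c.d3)) := by
  unfold Cert.ok at h
  simp only [Bool.and_eq_true, decide_eq_true_eq] at h
  obtain ⟨⟨⟨⟨⟨⟨h0, hch⟩, hcov⟩, hM⟩, h1⟩, h2⟩, h3⟩ := h
  obtain ⟨a1, a2, a3, a4⟩ := okH_prop _ _ _ _ _ _ h1
  obtain ⟨b1, b2, b3, b4⟩ := okH_prop _ _ _ _ _ _ h2
  obtain ⟨c1, c2, c3, c4⟩ := okH_prop _ _ _ _ _ _ h3
  simp only [List.all_eq_true, List.mem_range, List.any_eq_true, Bool.or_eq_true, beq_iff_eq]
    at hcov hM
  have hlen : (c.sb.map (tb p q r)).length = c.sb.length := by simp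
  have key := pump (c.sb.map (tb p q r)) (c.M + (p * c.d1 + q * c.d2 + r * c.d3))
    ((c.sb.map SBlk.x).headD 0) (by rw [List.map_map]; rfl)
    (by
      intro h
      have := congrArg List.length h
      simp at this
      rw [this] at h0
      simp at h0)
    (chain_of _ _ _ _ _ hch)
    (by
      intro s hs1 hs2
      rw [hlen] at hs2
      obtain ⟨b, hb, hb'⟩ := hcov (s - 1) (by omega)
      rw [Nat.sub_add_cancel hs1] at hb'
      rcases hb' with hb' | hb'
      · exact Or.inl ⟨tb p q r b, List.mem_map_of_mem hb, hb'⟩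
      · exact Or.inr ⟨tb p q r b, List.mem_map_of_mem hb, hb'⟩)
    (by rw [shift_lin, a1, b1, c1]; ring)
    (by rw [hlen, shift_lin, a2, b2, c2, l_lin, a3, b3, c3]; ring)
    (by
      intro b' hb'
      obtain ⟨b, hb, rfl⟩ := List.mem_map.1 hb'
      rw [cs_lin, tb_e, (a4 b hb).1, (b4 b hb).1, (c4 b hb).1]
      simp only [tb_l]
      ring)
    (by
      intro b' hb'
      obtain ⟨b, hb, rfl⟩ := List.mem_map.1 hb'
      rw [cs_lin, D_lin, U_lin, tb_x, (a4 b hb).2.1, (b4 b hb).2.1, (c4 b hb).2.1]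
      ring)
    (by
      intro b' hb' hl
      obtain ⟨b, hb, rfl⟩ := List.mem_map.1 hb'
      rw [tb_l] at hl
      have hne : b.a + b.b + b.c ≠ 0 := by
        intro h
        have ha : b.a = 0 := by omega
        have hb : b.b = 0 := by omega
        have hc : b.c = 0 := by omega
        rw [ha, hb, hc] at hl
        simp at hl
      have x1 := (a4 b hb).2.2.2.resolve_left hne
      have x2 := (b4 b hb).2.2.2.resolve_left hne
      have x3 := (c4 b hb).2.2.2.resolve_left hne
      constructor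
      · rw [D_lin, tb_dn p q r, x1.1, x2.1, x3.1]
        simp only [tb_l]
        ring
      · rw [U_lin, tb_up p q r, x1.2, x2.2, x3.2]
        simp only [tb_l]
        ring)
    (by
      intro b' hb'
      obtain ⟨b, hb, rfl⟩ := List.mem_map.1 hb'
      have y1 := (a4 b hb).2.2.1
      have y2 := (b4 b hb).2.2.1
      have y3 := (c4 b hb).2.2.1
      have y0 := hM b hb
      rw [← y0, ← y1, ← y2, ← y3]
      unfold V low
      rw [tb_x, tb_y, tb_e]
      rw [shift_lin c.sb p q r b.x, shift_lin c.sb p q r b.y, shift_lin c.sb p q r b.e,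
        D_lin c.sb p q r b.x, D_lin c.sb p q r b.y]
      simp only [tb_l]
      ring)
  rw [hlen, l_lin, a3, b3, c3] at key
  exact key

end Pool.Agent.H159R2.Cyc
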