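import Pool.Agent.H159R2.Cyc.Data

set_option autoImplicit false
set_option maxRecDepth 100000

namespace Pool.Agent.H159R2.Cyc

theorem certs_ok : certs.all Cert.ok = true := by decide +kernel

def Mof (n t : ℕ) : ℕ := 5 * (n / 2) + (if n % 2 = 1 then 4 else 2) + t

def target (n t : ℕ) : Bool :=
  if n % 2 = 1 then (decide (7 ≤ n) && decide (t ≤ n / 2))
  else (decide (4 ≤ n) && decide (t + 1 ≤ n / 2))

def rowOK (c : Cert) (n t p q r du : ℕ) : Bool :=
  (n == c.sb.length + 2 * (p * c.s1 + q * c.s2 + r * c.s3)) &&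
  (bif du == 0 then c.M + (p * c.d1 + q * c.d2 + r * c.d3) == Mof n t
    else c.M + (p * c.d1 + q * c.d2 + r * c.d3) + Mof n t == 3 * (2 * n + 1)) &&
  (decide (n < 96) || (du == 0 && c.al.p * c.s1 + c.al.q * c.s2 + c.al.r * c.s3 == 6 &&
    c.al.p * c.d1 + c.al.q * c.d2 + c.al.r * c.d3 == 30)) &&
  (decide (t < 31) || decide (n < 2 * t + 3) ||
    (du == 0 && c.be.p * c.s1 + c.be.q * c.s2 + c.be.r * c.s3 == 6 &&
    c.be.p * c.d1 + c.be.q * c.d2 + c.be.r * c.d3 == 37))

def pc (n t : ℕ) : Bool :=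
  !target n t || (match certs[(tbl.getD n []).getD t 0 / 2000000]? with
    | none => false
    | some c => rowOK c n t ((tbl.getD n []).getD t 0 / 20000 % 100)
      ((tbl.getD n []).getD t 0 / 200 % 100)
      ((tbl.getD n []).getD t 0 / 2 % 100) ((tbl.getD n []).getD t 0 % 2))

theorem all_pc : ((List.range 108).all fun n => (List.range 38).all fun t => pc n t) = true := by
  decide +kernel

theorem row_exists (n t : ℕ) (hn : n < 108) (ht : t < 38) (h : target n t = true) :
    ∃ c ∈ certs, ∃ p q r du : ℕ, rowOK c n t p q r du = true := by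
  have h1 := all_pc
  rw [List.all_eq_true] at h1
  have h2 := h1 n (List.mem_range.2 hn)
  rw [List.all_eq_true] at h2
  have h3 := h2 t (List.mem_range.2 ht)
  unfold pc at h3
  rw [h] at h3
  simp only [Bool.not_true, Bool.false_or] at h3
  generalize (tbl.getD n []).getD t 0 = e at h3
  cases hc : certs[e / 2000000]? with
  | none => rw [hc] at h3; simp at h3
  | some c =>
    rw [hc] at h3
    exact ⟨c, List.mem_of_getElem? hc, _, _, _, _, h3⟩

theorem target_iff (n t : ℕ) : target n t = true ↔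
    (n % 2 = 1 ∧ 7 ≤ n ∧ t ≤ n / 2) ∨ (n % 2 = 0 ∧ 4 ≤ n ∧ t + 1 ≤ n / 2) := by
  unfold target
  split_ifs with h
  · simp only [Bool.and_eq_true, decide_eq_true_eq]
    omega
  · simp only [Bool.and_eq_true, decide_eq_true_eq]
    omega

theorem scale (a s1 s2 s3 d1 d2 d3 x y z S T : ℕ)
    (h : 0 < a → x * s1 + y * s2 + z * s3 = S ∧ x * d1 + y * d2 + z * d3 = T) :
    ∃ x' y' z', x' * s1 + y' * s2 + z' * s3 = a * S ∧ x' * d1 + y' * d2 + z' * d3 = a * T := by
  rcases Nat.eq_zero_or_pos a with h0 | h0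
  · subst h0
    exact ⟨0, 0, 0, by simp, by simp⟩
  · obtain ⟨h1, h2⟩ := h h0
    refine ⟨a * x, a * y, a * z, ?_, ?_⟩
    · rw [← h1]; ring
    · rw [← h2]; ring

theorem em_target (n t : ℕ) (h : target n t = true) : EM n (Mof n t) := by
  obtain ⟨b, t2, hb1, hb2, hb3⟩ : ∃ b t2, t = t2 + 7 * b ∧ t2 < 38 ∧ (0 < b → 31 ≤ t2) := by
    rcases Nat.lt_or_ge t 38 with h | h
    · exact ⟨0, t, by omega, h, by omega⟩
    · exact ⟨(t - 31) / 7, t - 7 * ((t - 31) / 7), by omega, by omega, by omega⟩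
  rw [target_iff] at h
  obtain ⟨n1, hn1⟩ : ∃ n1, n = n1 + 12 * b := ⟨n - 12 * b, by omega⟩
  have hn1' : 2 * t2 + 2 * b + 1 ≤ n1 := by omega
  obtain ⟨a, n2, ha1, ha2, ha3⟩ : ∃ a n2, n1 = n2 + 12 * a ∧ n2 < 108 ∧ (0 < a → 96 ≤ n2) := by
    rcases Nat.lt_or_ge n1 108 with h | h
    · exact ⟨0, n1, by omega, h, by omega⟩
    · exact ⟨(n1 - 96) / 12, n1 - 12 * ((n1 - 96) / 12), by omega, by omega, by omega⟩
  have hn2 : 0 < a ∨ n2 = n1 := by omega
  have htar : target n2 t2 = true := by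
    rw [target_iff]
    rcases hn2 with h1 | h1
    · have := ha3 h1
      omega
    · subst h1
      omega
  obtain ⟨c, hc, p, q, r, du, hrow⟩ := row_exists n2 t2 ha2 hb2 htar
  have hok : c.ok = true := List.all_eq_true.1 certs_ok c hc
  unfold rowOK at hrow
  simp only [Bool.and_eq_true, Bool.or_eq_true, beq_iff_eq, decide_eq_true_eq] at hrow
  obtain ⟨⟨⟨h1, h2⟩, h3⟩, h4⟩ := hrow
  obtain ⟨x1, x2, x3, hx1, hx2⟩ := scale a c.s1 c.s2 c.s3 c.d1 c.d2 c.d3 c.al.p c.al.q c.al.r 6 30
    (by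
      intro h0
      have := ha3 h0
      rcases h3 with h3 | h3
      · omega
      · exact ⟨h3.1.2, h3.2⟩)
  obtain ⟨y1, y2, y3, hy1, hy2⟩ := scale b c.s1 c.s2 c.s3 c.d1 c.d2 c.d3 c.be.p c.be.q c.be.r 6 37
    (by
      intro h0
      have h5 := hb3 h0
      have h6 : 2 * t2 + 3 ≤ n2 := by
        rcases hn2 with h7 | h7
        · have := ha3 h7
          omega
        · omega
      rcases h4 with (h4 | h4) | h4
      · omega
      · omega
      · exact ⟨h4.1.2, h4.2⟩)
  by_cases hdu : du = 0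
  · subst hdu
    simp only [beq_self_eq_true, cond_true, beq_iff_eq] at h2
    have key := c.em hok (p + x1 + y1) (q + x2 + y2) (r + x3 + y3)
    have e1 : c.sb.length + 2 * ((p + x1 + y1) * c.s1 + (q + x2 + y2) * c.s2 +
        (r + x3 + y3) * c.s3) = n := by
      have : (p + x1 + y1) * c.s1 + (q + x2 + y2) * c.s2 + (r + x3 + y3) * c.s3 =
        (p * c.s1 + q * c.s2 + r * c.s3) + (x1 * c.s1 + x2 * c.s2 + x3 * c.s3) +
          (y1 * c.s1 + y2 * c.s2 + y3 * c.s3) := by ring
      rw [this, hx1, hy1]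
      omega
    have e2 : c.M + ((p + x1 + y1) * c.d1 + (q + x2 + y2) * c.d2 + (r + x3 + y3) * c.d3) =
        Mof n t := by
      have : (p + x1 + y1) * c.d1 + (q + x2 + y2) * c.d2 + (r + x3 + y3) * c.d3 =
        (p * c.d1 + q * c.d2 + r * c.d3) + (x1 * c.d1 + x2 * c.d2 + x3 * c.d3) +
          (y1 * c.d1 + y2 * c.d2 + y3 * c.d3) := by ring
      rw [this, hx2, hy2, ← add_assoc, ← add_assoc, h2]
      unfold Mof
      have : n % 2 = n2 % 2 := by omega
      rw [this]
      omega
    rw [e1, e2] at key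
    exact key
  · have h2' : c.M + (p * c.d1 + q * c.d2 + r * c.d3) + Mof n2 t2 = 3 * (2 * n2 + 1) := by
      have hb' : (du == 0) = false := by simpa using hdu
      rw [hb'] at h2
      simpa using h2
    have ha0 : a = 0 := by
      by_contra h0
      have := ha3 (by omega)
      rcases h3 with h3 | h3
      · omega
      · exact hdu h3.1.1
    have hb0 : b = 0 := by
      by_contra h0
      have h5 := hb3 (by omega)
      rcases h4 with (h4 | h4) | h4
      · omega
      · omega
      · exact hdu h4.1.1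
    subst ha0 hb0
    have en : n = n2 := by omega
    have et : t = t2 := by omega
    subst en et
    have key := c.em hok p q r
    rw [← h1] at key
    exact EM_dual n _ _ key h2'

theorem em_all (n j : ℕ) (h : (n % 2 = 1 ∧ 7 ≤ n ∧ 5 * (n / 2) + 4 ≤ j ∧ j ≤ 7 * (n / 2) + 5) ∨
    (n % 2 = 0 ∧ 4 ≤ n ∧ 5 * (n / 2) + 2 ≤ j ∧ j ≤ 7 * (n / 2) + 1)) : EM n j := by
  by_cases hh : 2 * j ≤ 3 * (2 * n + 1)
  · have key := em_target n (j - 5 * (n / 2) - (if n % 2 = 1 then 4 else 2)) (by
      rw [target_iff]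
      rcases h with h | h
      · rw [if_pos h.1]; omega
      · rw [if_neg (by omega)]; omega)
    have : Mof n (j - 5 * (n / 2) - (if n % 2 = 1 then 4 else 2)) = j := by
      unfold Mof
      rcases h with h | h
      · rw [if_pos h.1]; omega
      · rw [if_neg (by omega)]; omega
    rw [this] at key
    exact key
  · have key := em_target n (3 * (2 * n + 1) - j - 5 * (n / 2) - (if n % 2 = 1 then 4 else 2)) (by
      rw [target_iff]
      rcases h with h | h
      · rw [if_pos h.1]; omega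
      · rw [if_neg (by omega)]; omega)
    have : Mof n (3 * (2 * n + 1) - j - 5 * (n / 2) - (if n % 2 = 1 then 4 else 2)) =
        3 * (2 * n + 1) - j := by
      unfold Mof
      rcases h with h | h
      · rw [if_pos h.1]; omega
      · rw [if_neg (by omega)]; omega
    rw [this] at key
    exact EM_dual n _ _ key (by omega)

end Pool.Agent.H159R2.Cyc
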