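import Pool.Agent.H159R2.Cyc.Basic

set_option autoImplicit false

namespace Pool.Agent.H159R2.Cyc

/-- ascending zigzag of vertex labels -/
def zigV : ℕ → ℕ → ℕ → List ℕ
  | X, _, 0 => [X]
  | X, Y, l + 1 => X :: Y :: zigV (X + 1) (Y + 1) l

/-- edge labels of an ascending zigzag -/
def zigE : ℕ → ℕ → List ℕ
  | T, 0 => [T]
  | T, l + 1 => T :: (T - 1) :: zigE (T - 2) l

/-- descending zigzag of vertex labels -/
def zagV : ℕ → ℕ → ℕ → List ℕ
  | X, _, 0 => [X]
  | X, Y, l + 1 => (X + l + 1) :: (Y + l + 1) :: zagV X Y l

/-- edge labels of a descending zigzag -/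
def zagE : ℕ → ℕ → List ℕ
  | T, 0 => [T]
  | T, l + 1 => T :: (T + 1) :: zagE (T + 2) l

theorem zigV_length (X Y l : ℕ) : (zigV X Y l).length = 2 * l + 1 := by
  induction l generalizing X Y with
  | zero => rfl
  | succ l ih => simp [zigV, ih]; omega

theorem zagV_length (X Y l : ℕ) : (zagV X Y l).length = 2 * l + 1 := by
  induction l generalizing X Y with
  | zero => rfl
  | succ l ih => simp [zagV, ih]; omega

theorem zigV_head (X Y l z : ℕ) : (zigV X Y l).headD z = X := by
  cases l <;> rfl

theorem zagV_head (X Y l z : ℕ) : (zagV X Y l).headD z = X + l := by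
  cases l <;> rfl

theorem zig_P (M X Y T l : ℕ) (h : X + Y + T = M) (hT : 2 * l ≤ T) :
    P M (zigV X Y l) (zigE T l) (Y + l) := by
  induction l generalizing X Y T with
  | zero => exact ⟨by simp; omega, trivial⟩
  | succ l ih =>
    refine ⟨?_, ?_, ?_⟩
    · simp; omega
    · have := zigV_head (X + 1) (Y + 1) l (Y + (l + 1))
      change T - 1 + Y + (zigV (X + 1) (Y + 1) l).headD (Y + (l + 1)) = M
      rw [this]
      omega
    · have := ih (X + 1) (Y + 1) (T - 2) (by omega) (by omega)
      rw [show Y + (l + 1) = Y + 1 + l by omega]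
      exact this

theorem zag_P (M X Y T l : ℕ) (h : X + Y + 2 * l + T = M) :
    P M (zagV X Y l) (zagE T l) Y := by
  induction l generalizing T with
  | zero => exact ⟨by simp; omega, trivial⟩
  | succ l ih =>
    refine ⟨?_, ?_, ?_⟩
    · simp; omega
    · rw [zagV_head]
      omega
    · exact ih (T + 2) (by omega)

theorem zigV_memX (X Y l j : ℕ) (hj : j ≤ l) : X + j ∈ zigV X Y l := by
  induction l generalizing X Y j with
  | zero => simp [zigV]; omega
  | succ l ih =>
    cases j with
    | zero => simp [zigV]
    | succ j =>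
      have := ih (X + 1) (Y + 1) j (by omega)
      rw [show X + (j + 1) = X + 1 + j by omega]
      exact List.mem_cons_of_mem _ (List.mem_cons_of_mem _ this)

theorem zigV_memY (X Y l j : ℕ) (hj : j < l) : Y + j ∈ zigV X Y l := by
  induction l generalizing X Y j with
  | zero => omega
  | succ l ih =>
    cases j with
    | zero => simp [zigV]
    | succ j =>
      have := ih (X + 1) (Y + 1) j (by omega)
      rw [show Y + (j + 1) = Y + 1 + j by omega]
      exact List.mem_cons_of_mem _ (List.mem_cons_of_mem _ this)

theorem zagV_memX (X Y l j : ℕ) (hj : j ≤ l) : X + j ∈ zagV X Y l := by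
  induction l with
  | zero => simp [zagV]; omega
  | succ l ih =>
    rcases Nat.lt_or_ge l j with h | h
    · have : j = l + 1 := by omega
      subst this
      simp [zagV, Nat.add_assoc]
    · exact List.mem_cons_of_mem _ (List.mem_cons_of_mem _ (ih h))

theorem zagV_memY (X Y l j : ℕ) (hj : 1 ≤ j) (hj' : j ≤ l) : Y + j ∈ zagV X Y l := by
  induction l with
  | zero => omega
  | succ l ih =>
    rcases Nat.lt_or_ge l j with h | h
    · have : j = l + 1 := by omega
      subst this
      simp [zagV, Nat.add_assoc]
    · exact List.mem_cons_of_mem _ (List.mem_cons_of_mem _ (ih h))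

theorem zigE_mem (T l j : ℕ) (hj : j ≤ 2 * l) (hT : 2 * l ≤ T) : T - j ∈ zigE T l := by
  induction l generalizing T j with
  | zero => simp [zigE]; omega
  | succ l ih =>
    rcases j with _ | _ | j
    · simp [zigE]
    · simp [zigE]
    · have := ih (T - 2) j (by omega) (by omega)
      rw [show T - (j + 1 + 1) = T - 2 - j by omega]
      exact List.mem_cons_of_mem _ (List.mem_cons_of_mem _ this)

theorem zagE_mem (T l j : ℕ) (hj : j ≤ 2 * l) : T + j ∈ zagE T l := by
  induction l generalizing T j with
  | zero => simp [zagE]; omega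
  | succ l ih =>
    rcases j with _ | _ | j
    · simp [zagE]
    · simp [zagE]
    · have := ih (T + 2) j (by omega)
      rw [show T + (j + 1 + 1) = T + 2 + j by omega]
      exact List.mem_cons_of_mem _ (List.mem_cons_of_mem _ this)

/-- A block: an edge `x - y` of the seed cycle with edge label `e`, orientation `o`,
and the pump length `l`. -/
structure Blk where
  x : ℕ
  y : ℕ
  e : ℕ
  o : Bool
  l : ℕ

namespace Blk

def up (b : Blk) : ℕ := if b.o then b.x else b.y
def dn (b : Blk) : ℕ := if b.o then b.y else b.x

end Blk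

/-- number of labels inserted strictly below `s` -/
def shift (bs : List Blk) (s : ℕ) : ℕ :=
  (bs.map fun b => (if b.up < s then b.l else 0) + (if b.dn < s then b.l else 0) +
    (if b.e < s then 2 * b.l else 0)).sum

def low (bs : List Blk) (s : ℕ) : ℕ := s + shift bs s

def cs (bs : List Blk) (s : ℕ) : ℕ :=
  (bs.map fun b => (if b.up = s then b.l else 0) + (if b.dn = s then b.l else 0) +
    (if b.e = s then 2 * b.l else 0)).sum

def D (bs : List Blk) (s : ℕ) : ℕ := (bs.map fun b => if b.dn = s then b.l else 0).sum
def U (bs : List Blk) (s : ℕ) : ℕ := (bs.map fun b => if b.up = s then b.l else 0).sum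

def V (bs : List Blk) (s : ℕ) : ℕ := low bs s + D bs s

theorem ite_succ (p s l : ℕ) : (if p < s + 1 then l else 0) =
    (if p < s then l else 0) + (if p = s then l else 0) := by
  rcases lt_trichotomy p s with h | h | h
  · rw [if_pos (by omega), if_pos h, if_neg (by omega)]
    omega
  · rw [if_pos (by omega), if_neg (by omega), if_pos h]
    omega
  · rw [if_neg (by omega), if_neg (by omega), if_neg (by omega)]

theorem shift_succ (bs : List Blk) (s : ℕ) : shift bs (s + 1) = shift bs s + cs bs s := by
  unfold shift cs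
  rw [← List.sum_map_add]
  congr 1
  apply List.map_congr_left
  intro b _
  rw [ite_succ, ite_succ, ite_succ]
  ring

theorem low_succ (bs : List Blk) (s : ℕ) : low bs (s + 1) = low bs s + 1 + cs bs s := by
  unfold low
  rw [shift_succ]
  ring

/-- vertex labels of a block -/
def Blk.verts (bs : List Blk) (b : Blk) : List ℕ :=
  if b.o then zigV (V bs b.x) (V bs b.y - b.l) b.l else zagV (V bs b.x - b.l) (V bs b.y) b.l

/-- edge labels of a block -/
def Blk.edges (bs : List Blk) (b : Blk) : List ℕ :=
  if b.o then zigE (low bs b.e + 2 * b.l) b.l else zagE (low bs b.e) b.l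

def Chained : List Blk → ℕ → Prop
  | [], _ => True
  | b :: bs, z => b.y = (bs.map Blk.x).headD z ∧ Chained bs z

theorem chain_P (M : ℕ) (W : ℕ → ℕ) (vs es : Blk → List ℕ) (bs : List Blk) (z : ℕ)
    (hc : Chained bs z) (hP : ∀ b ∈ bs, P M (vs b) (es b) (W b.y))
    (hh : ∀ b ∈ bs, ∀ w, (vs b).headD w = W b.x) :
    P M (bs.flatMap vs) (bs.flatMap es) (W z) := by
  induction bs with
  | nil => exact trivial
  | cons b bs ih =>
    obtain ⟨h1, h2⟩ := hc
    rw [List.flatMap_cons, List.flatMap_cons]
    apply P_append
    · have h3 : (bs.flatMap vs).headD (W z) = W b.y := by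
        rw [h1]
        cases bs with
        | nil => rfl
        | cons c bs =>
          rw [List.flatMap_cons, headD_append, hh c (by simp)]
          rfl
      rw [h3]
      exact hP b (by simp)
    · exact ih h2 (fun c hc => hP c (by simp [hc])) (fun c hc => hh c (by simp [hc]))

theorem interval_step (f : ℕ → ℕ) (z k : ℕ) (h1 : f 1 ≤ z) (h2 : z < f (k + 1)) :
    ∃ s, 1 ≤ s ∧ s ≤ k ∧ f s ≤ z ∧ z < f (s + 1) := by
  induction k with
  | zero => rw [Nat.zero_add] at h2; omega
  | succ k ih =>
    by_cases h : z < f (k + 1)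
    · obtain ⟨s, a, b, c⟩ := ih h
      exact ⟨s, a, by omega, c⟩
    · exact ⟨k + 1, by omega, le_refl _, by omega, h2⟩

theorem sum_pos_exists (bs : List Blk) (p : Blk → ℕ) (s : ℕ)
    (h : 0 < (bs.map fun b => if p b = s then b.l else 0).sum) :
    ∃ b ∈ bs, p b = s ∧ 0 < b.l := by
  induction bs with
  | nil => simp at h
  | cons b bs ih =>
    rw [List.map_cons, List.sum_cons] at h
    by_cases hb : p b = s ∧ 0 < b.l
    · exact ⟨b, by simp, hb⟩
    · have h0 : (if p b = s then b.l else 0) = 0 := by
        split_ifs with h1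
        · by_contra h2
          exact hb ⟨h1, by omega⟩
        · rfl
      obtain ⟨c, hc, h3⟩ := ih (by omega)
      exact ⟨c, by simp [hc], h3⟩

theorem pump (bs : List Blk) (M : ℕ) (z0 : ℕ) (hz0 : (bs.map Blk.x).headD 0 = z0)
    (hne : bs ≠ []) (hch : Chained bs z0)
    (hcov : ∀ s, 1 ≤ s → s ≤ 2 * bs.length → (∃ b ∈ bs, b.x = s) ∨ (∃ b ∈ bs, b.e = s))
    (hlo : shift bs 1 = 0) (hhi : shift bs (2 * bs.length + 1) = 4 * (bs.map Blk.l).sum)
    (hA : ∀ b ∈ bs, cs bs b.e = 2 * b.l)
    (hB : ∀ b ∈ bs, cs bs b.x = D bs b.x + U bs b.x)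
    (hC : ∀ b ∈ bs, 0 < b.l → D bs b.dn = b.l ∧ U bs b.up = b.l)
    (hM : ∀ b ∈ bs, V bs b.x + V bs b.y + low bs b.e + b.l = M) :
    EM (bs.length + 2 * (bs.map Blk.l).sum) M := by
  have hVl : ∀ b ∈ bs, b.l ≤ V bs b.dn := by
    intro b hb
    rcases Nat.eq_zero_or_pos b.l with h | h
    · omega
    · have := (hC b hb h).1
      unfold V
      omega
  have hP : ∀ b ∈ bs, P M (b.verts bs) (b.edges bs) (V bs b.y) := by
    intro b hb
    have h1 := hVl b hb
    have h2 := hM b hb
    unfold Blk.verts Blk.edges
    unfold Blk.dn at h1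
    rcases hbo : b.o with _ | _
    · rw [hbo] at h1
      simp only [Bool.false_eq_true, if_false] at h1 ⊢
      apply zag_P
      omega
    · rw [hbo] at h1
      simp only [if_true] at h1 ⊢
      have := zig_P M (V bs b.x) (V bs b.y - b.l) (low bs b.e + 2 * b.l) b.l (by omega) (by omega)
      rw [Nat.sub_add_cancel h1] at this
      exact this
  have hH : ∀ b ∈ bs, ∀ w, (b.verts bs).headD w = V bs b.x := by
    intro b hb w
    have h1 := hVl b hb
    unfold Blk.verts
    unfold Blk.dn at h1
    rcases hbo : b.o with _ | _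
    · rw [hbo] at h1
      simp only [Bool.false_eq_true, if_false] at h1 ⊢
      rw [zagV_head]
      omega
    · simp only [if_true]
      rw [zigV_head]
  have hPall := chain_P M (V bs) (Blk.verts bs) (Blk.edges bs) bs z0 hch hP hH
  have hhead : (bs.flatMap (Blk.verts bs)).headD 0 = V bs z0 := by
    cases hbs : bs with
    | nil => exact absurd hbs hne
    | cons c cs =>
      rw [List.flatMap_cons, headD_append]
      rw [hbs] at hH hz0
      rw [hH c (by simp)]
      rw [← hz0]
      rfl
  rw [← hhead] at hPall
  have hlenv : ∀ b : Blk, (b.verts bs).length = 2 * b.l + 1 := by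
    intro b
    unfold Blk.verts
    split_ifs
    · exact zigV_length _ _ _
    · exact zagV_length _ _ _
  have hlen : (bs.flatMap (Blk.verts bs)).length = bs.length + 2 * (bs.map Blk.l).sum := by
    have : ∀ cs : List Blk, (cs.flatMap (Blk.verts bs)).length =
        cs.length + 2 * (cs.map Blk.l).sum := by
      intro cs
      induction cs with
      | nil => rfl
      | cons c cs ih =>
        rw [List.flatMap_cons, List.length_append, ih, hlenv, List.map_cons, List.sum_cons,
          List.length_cons]
        ring
    exact this bs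
  rw [← hlen]
  apply EM_of_P M _ _ hPall
  intro z hz1 hz2
  rw [hlen] at hz2
  obtain ⟨s, hs1, hs2, hs3, hs4⟩ := interval_step (low bs) z (2 * bs.length)
    (by unfold low; omega) (by unfold low; omega)
  rw [low_succ] at hs4
  rw [List.mem_flatMap, List.mem_flatMap]
  rcases hcov s hs1 hs2 with ⟨b, hb, rfl⟩ | ⟨b, hb, rfl⟩
  · left
    rw [hB b hb] at hs4
    -- z = low + q
    by_cases hq : z < V bs b.x
    · -- down run
      have hD : 0 < D bs b.x := by unfold V at hq; omega
      obtain ⟨c, hc, hc1, hc2⟩ := sum_pos_exists bs Blk.dn b.x hD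
      have hDc := (hC c hc hc2).1
      rw [hc1] at hDc
      refine ⟨c, hc, ?_⟩
      unfold Blk.dn at hc1
      unfold Blk.verts
      rcases hco : c.o with _ | _
      · rw [hco] at hc1
        simp only [Bool.false_eq_true, if_false] at hc1 ⊢
        have := zagV_memX (V bs c.x - c.l) (V bs c.y) c.l (z - (V bs c.x - c.l))
          (by rw [hc1]; unfold V at hq ⊢; omega)
        rw [show V bs c.x - c.l + (z - (V bs c.x - c.l)) = z by
          rw [hc1]; unfold V at hq ⊢; omega] at this
        exact this
      · rw [hco] at hc1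
        simp only [if_true] at hc1 ⊢
        have := zigV_memY (V bs c.x) (V bs c.y - c.l) c.l (z - (V bs c.y - c.l))
          (by rw [hc1]; unfold V at hq ⊢; omega)
        rw [show V bs c.y - c.l + (z - (V bs c.y - c.l)) = z by
          rw [hc1]; unfold V at hq ⊢; omega] at this
        exact this
    · by_cases hq2 : z = V bs b.x
      · refine ⟨b, hb, ?_⟩
        have h1 := hH b hb 0
        have h2 := hlenv b
        rw [hq2, ← h1]
        cases hv : Blk.verts bs b with
        | nil => rw [hv] at h2; simp at h2
        | cons v vs => simp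
      · -- up run
        have hU : 0 < U bs b.x := by unfold V at hq hq2; omega
        obtain ⟨c, hc, hc1, hc2⟩ := sum_pos_exists bs Blk.up b.x hU
        have hUc := (hC c hc hc2).2
        rw [hc1] at hUc
        refine ⟨c, hc, ?_⟩
        unfold Blk.up at hc1
        unfold Blk.verts
        rcases hco : c.o with _ | _
        · rw [hco] at hc1
          simp only [Bool.false_eq_true, if_false] at hc1 ⊢
          have := zagV_memY (V bs c.x - c.l) (V bs c.y) c.l (z - V bs c.y)
            (by rw [hc1]; unfold V at hq hq2 ⊢; omega) (by rw [hc1]; unfold V at hq hq2 ⊢; omega)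
          rw [show V bs c.y + (z - V bs c.y) = z by
            rw [hc1]; omega] at this
          exact this
        · rw [hco] at hc1
          simp only [if_true] at hc1 ⊢
          have := zigV_memX (V bs c.x) (V bs c.y - c.l) c.l (z - V bs c.x)
            (by rw [hc1]; unfold V at hq hq2 ⊢; omega)
          rw [show V bs c.x + (z - V bs c.x) = z by
            rw [hc1]; omega] at this
          exact this
  · right
    rw [hA b hb] at hs4
    refine ⟨b, hb, ?_⟩
    unfold Blk.edges
    split_ifs
    · have := zigE_mem (low bs b.e + 2 * b.l) b.l (low bs b.e + 2 * b.l - z) (by omega) (by omega)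
      rw [show low bs b.e + 2 * b.l - (low bs b.e + 2 * b.l - z) = z by omega] at this
      exact this
    · have := zagE_mem (low bs b.e) b.l (z - low bs b.e) (by omega)
      rw [show low bs b.e + (z - low bs b.e) = z by omega] at this
      exact this

end Pool.Agent.H159R2.Cyc
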